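import Mathlib
import Pool.Agent.N741.UN.Six

/-!
# Plane curves a x^m + b y^n = c over all number fields of bounded degree

For all `κ ≥ 1`, `P` and `ε > 0` there are `R` and `δ > 0` such that for all `Y ≥ 1` the following holds
for all but at most `Y ^ ε` classes `(m, n, α)`, where `m, n ≤ Y ^ δ` and `gcd m n ≥ R`. Let `K` be ANY
number field of degree at most `κ` in `ℂ`, let `a x ^ m + b y ^ n = c` be ANY curve with nonzero `a`,
`b`, `c` in `K` (of any height) and with a `K`-rational base point `P₀ = (x₀, y₀)`, `x₀ y₀ ≠ 0`, of the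
class `α = a x₀ ^ m / c`, and let `y₁, …, y_P` be any nonzero elements of `K` of absolute height at most
`Y`. Then at most `2 μ_m μ_n` points `(x, y)` of the curve are such that both `x / x₀` and `y / y₀` are
of the form `s * ∏ j, y_j ^ f_j` with `s` in `K` of absolute height at most `Y` and integral exponents
of absolute value at most `Y ^ δ`; here `μ_k` is the number of the `k`-th roots of unity in `K`.

Scaling the coordinates turns `(C, P₀)` into `α x ^ m + (1 - α) y ^ n = 1` with the base point `(1, 1)`.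
The bound `2 μ_m μ_n` is sharp: it is attained by all the curves through `(1, 1)` and any given point
`(u, v)`, `u ^ m ≠ v ^ n`, and they are more than `Y ^ ε`. For `K = ℚ` it is `2` if `m` and `n` are odd,
and `8` if they are even. The genus tends to infinity with `gcd m n`. The heights of the points (relative
to `P₀`) are exponential in a power of `Y`.

Method: three points with different values of `(x ^ m, y ^ n)` give a determinant whose six terms are,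
up to sign, `gcd m n`-th powers of monomials. By the theorem on sums of powers over all number fields
of bounded degree (project HK, determinant method in an ultraproduct, `Pool/Agent/N741/HB/Thm4.lean`),
in each minimal vanishing partial sum the quotients of these monomials take few values. There are at
most two such partial sums and the quotients determine the monomials up to sixth roots of unity.

Parts of the proof by helpers 20, 26, 27, 42, 54, 72, 130, 264, 273, 340, 368, 426, 438, 441, 459, 519,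
572, 603, 618, 713, 717, 776, 868, 887, 966, 999 (see Pool/Agent/N741/HB/Thm.lean, Thm3.lean, Thm4.lean).
-/

set_option autoImplicit false

namespace Pool.Agent.Results.MP_10e784_ag.DiagonalCurvesGenerated

open Pool.Agent.N741.UN Pool.Agent.N741.HB Pool.Agent.N741.HK Pool.Agent.Y902.GN Height

/-- the points with nonzero coordinates of the curve `a x ^ m + b y ^ n = c` -/
def points {K : Type} [Field K] (m n : ℕ) (a b c : K) : Set (K × K) :=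
  {Q | Q.1 ≠ 0 ∧ Q.2 ≠ 0 ∧ a * Q.1 ^ m + b * Q.2 ^ n = c}

/-- `x` is the product of an element of absolute height at most `Y` and of powers of the `y j` with
exponents of absolute value at most `B` (Mathlib's height `Height.mulHeight₁` is relative to `K`) -/
def Generated {K : Type} [Field K] [NumberField K] {P : ℕ} (Y : ℕ) (y : Fin P → K) (B : ℝ)
    (x : K) : Prop :=
  ∃ (s : K) (f : Fin P → ℤ), mulHeight₁ s ≤ (Y : ℝ) ^ Module.finrank ℚ K ∧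
    (∀ j, |(f j : ℝ)| ≤ B) ∧ x = s * ∏ j, y j ^ f j

/-- the classes `(m, n, α)` with `R ≤ gcd m n`, `1 ≤ m, n ≤ Y ^ δ`, for which over some number field
`K` of degree at most `κ`, embedded into `ℂ`, there are nonzero `y j` of absolute height at most `Y` and
a curve `a x ^ m + b y ^ n = c` with a base point `P₀`, `α = a x₀ ^ m / c`, and more than `2 μ_m μ_n`
points whose coordinates, divided by those of `P₀`, are generated by the `y j` -/
def exceptional (κ P R : ℕ) (δ : ℝ) (Y : ℕ) : Set (ℕ × ℕ × ℂ) :=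
  {t | R ≤ Nat.gcd t.1 t.2.1 ∧ 1 ≤ t.1 ∧ 1 ≤ t.2.1 ∧ (t.1 : ℝ) ≤ (Y : ℝ) ^ δ ∧
    (t.2.1 : ℝ) ≤ (Y : ℝ) ^ δ ∧ ∃ (K : Type) (_ : Field K) (_ : NumberField K) (σ : K →+* ℂ)
    (y : Fin P → K) (a b c : K), Module.finrank ℚ K ≤ κ ∧
    (∀ j, y j ≠ 0 ∧ mulHeight₁ (y j) ≤ (Y : ℝ) ^ Module.finrank ℚ K) ∧ a ≠ 0 ∧ b ≠ 0 ∧ c ≠ 0 ∧
    ∃ P₀ ∈ points t.1 t.2.1 a b c, σ (a * P₀.1 ^ t.1 / c) = t.2.2 ∧
      ((2 * (Nat.card {ζ : K // ζ ^ t.1 = 1} * Nat.card {ζ : K // ζ ^ t.2.1 = 1}) : ℕ) : ℕ∞) <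
        {Q | Q ∈ points t.1 t.2.1 a b c ∧ Generated Y y ((Y : ℝ) ^ δ) (Q.1 / P₀.1) ∧
          Generated Y y ((Y : ℝ) ^ δ) (Q.2 / P₀.2)}.encard}

/-! ## Classes of points -/

/-- the `d`-th roots of unity -/
theorem rou_finite {K : Type} [Field K] {d : ℕ} (hd : 1 ≤ d) : Finite {ζ : K // ζ ^ d = 1} := by
  classical
  refine Set.Finite.subset (Polynomial.nthRoots d (1 : K)).toFinset.finite_toSet fun ζ hζ => ?_
  rw [Finset.mem_coe, Multiset.mem_toFinset, Polynomial.mem_nthRoots (by omega)]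
  exact hζ

/-- the elements with a given `d`-th power -/
theorem fibre_card {K : Type} [Field K] {d : ℕ} (hd : 1 ≤ d) (S : Finset K) (c : K)
    (hS : ∀ x ∈ S, x ≠ 0 ∧ x ^ d = c) : S.card ≤ Nat.card {ζ : K // ζ ^ d = 1} := by
  classical
  have := rou_finite (K := K) hd
  rcases S.eq_empty_or_nonempty with h0 | ⟨x0, hx0⟩
  · rw [h0, Finset.card_empty]
    exact Nat.zero_le _
  have hc : c ≠ 0 := by
    rw [← (hS x0 hx0).2]
    exact pow_ne_zero _ (hS x0 hx0).1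
  rw [← Nat.card_eq_finsetCard]
  refine Nat.card_le_card_of_injective (fun x : S => (⟨x.1 / x0, ?_⟩ : {ζ : K // ζ ^ d = 1})) ?_
  · rw [div_pow, (hS _ x.2).2, (hS x0 hx0).2, div_self hc]
  · intro x x' h
    have h1 : x.1 / x0 = x'.1 / x0 := congrArg Subtype.val h
    rw [div_left_inj' (hS x0 hx0).1] at h1
    exact Subtype.ext h1

/-- the points of a given class -/
theorem fibre_card2 {K : Type} [Field K] {m n : ℕ} (hm : 1 ≤ m) (hn : 1 ≤ n) (S : Finset (K × K))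
    (c : K × K) (hS : ∀ Q ∈ S, Q.1 ≠ 0 ∧ Q.2 ≠ 0 ∧ (Q.1 ^ m, Q.2 ^ n) = c) :
    S.card ≤ Nat.card {ζ : K // ζ ^ m = 1} * Nat.card {ζ : K // ζ ^ n = 1} := by
  classical
  have h1 : S ⊆ S.image Prod.fst ×ˢ S.image Prod.snd := fun Q hQ =>
    Finset.mem_product.2 ⟨Finset.mem_image_of_mem _ hQ, Finset.mem_image_of_mem _ hQ⟩
  refine (Finset.card_le_card h1).trans ?_
  rw [Finset.card_product]
  refine Nat.mul_le_mul (fibre_card hm _ c.1 fun x hx => ?_) (fibre_card hn _ c.2 fun x hx => ?_)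
  · obtain ⟨Q, hQ, rfl⟩ := Finset.mem_image.1 hx
    obtain ⟨h2, h3, h4⟩ := hS Q hQ
    rw [← h4]
    exact ⟨h2, rfl⟩
  · obtain ⟨Q, hQ, rfl⟩ := Finset.mem_image.1 hx
    obtain ⟨h2, h3, h4⟩ := hS Q hQ
    rw [← h4]
    exact ⟨h3, rfl⟩

/-- more than `2 μ_m μ_n` points are in two classes besides a given one -/
theorem two_more {K : Type} [Field K] {m n : ℕ} (hm : 1 ≤ m) (hn : 1 ≤ n) (S : Finset (K × K))
    (h0 : ∀ Q ∈ S, Q.1 ≠ 0 ∧ Q.2 ≠ 0)
    (hc : 2 * (Nat.card {ζ : K // ζ ^ m = 1} * Nat.card {ζ : K // ζ ^ n = 1}) < S.card)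
    (c : K × K) : ∃ Q ∈ S, ∃ Q' ∈ S, (Q.1 ^ m, Q.2 ^ n) ≠ c ∧ (Q'.1 ^ m, Q'.2 ^ n) ≠ c ∧
      (Q.1 ^ m, Q.2 ^ n) ≠ (Q'.1 ^ m, Q'.2 ^ n) := by
  classical
  by_contra hcon
  push Not at hcon
  have h1 : (S.filter fun Q => (Q.1 ^ m, Q.2 ^ n) = c).card ≤
      Nat.card {ζ : K // ζ ^ m = 1} * Nat.card {ζ : K // ζ ^ n = 1} := by
    refine fibre_card2 hm hn _ c fun Q hQ => ?_
    obtain ⟨h2, h3⟩ := Finset.mem_filter.1 hQ
    exact ⟨(h0 Q h2).1, (h0 Q h2).2, h3⟩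
  have h2 : (S.filter fun Q => ¬ (Q.1 ^ m, Q.2 ^ n) = c).card ≤
      Nat.card {ζ : K // ζ ^ m = 1} * Nat.card {ζ : K // ζ ^ n = 1} := by
    rcases (S.filter fun Q => ¬ (Q.1 ^ m, Q.2 ^ n) = c).eq_empty_or_nonempty with h3 | ⟨Q0, hQ0⟩
    · rw [h3, Finset.card_empty]
      exact Nat.zero_le _
    · obtain ⟨a1, a2⟩ := Finset.mem_filter.1 hQ0
      refine fibre_card2 hm hn _ (Q0.1 ^ m, Q0.2 ^ n) fun Q hQ => ?_
      obtain ⟨h4, h5⟩ := Finset.mem_filter.1 hQ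
      exact ⟨(h0 Q h4).1, (h0 Q h4).2, hcon Q h4 Q0 a1 h5 a2⟩
  have h3 := Finset.card_filter_add_card_filter_not (s := S)
    (fun Q : K × K => (Q.1 ^ m, Q.2 ^ n) = c)
  omega

/-! ## The six terms -/

/-- the conditions on two points besides `(1, 1)` -/
theorem det_six {K : Type} [Field K] {α a b a' b' : K} (hα : α ≠ 0) (hα1 : 1 - α ≠ 0)
    (ha : a ≠ 0) (hb : b ≠ 0) (ha' : a' ≠ 0) (hb' : b' ≠ 0)
    (h : α * a + (1 - α) * b = 1) (h' : α * a' + (1 - α) * b' = 1)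
    (h1 : (a, b) ≠ (1, 1)) (h2 : (a', b') ≠ (1, 1)) (h3 : (a, b) ≠ (a', b')) :
    a * b' + a' + b - a - b' - a' * b = 0 ∧ a ≠ b ∧
    ∀ i j : Fin 6, i.1 < 3 → 3 ≤ j.1 → (![a * b', a', b, -a, -b', -(a' * b)] : Fin 6 → K) i +
      (![a * b', a', b, -a, -b', -(a' * b)] : Fin 6 → K) j ≠ 0 := by
  have key : ∀ x y : K, α * x + (1 - α) * y = 0 → (x = 0 ↔ y = 0) := by
    intro x y hxy
    constructor
    · rintro rfl
      rw [mul_zero, zero_add] at hxy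
      exact (mul_eq_zero.1 hxy).resolve_left hα1
    · rintro rfl
      rw [mul_zero, add_zero] at hxy
      exact (mul_eq_zero.1 hxy).resolve_left hα
  have na : a - 1 ≠ 0 := by
    intro h4
    have h5 := (key (a - 1) (b - 1) (by linear_combination h)).1 h4
    exact h1 (Prod.ext (sub_eq_zero.1 h4) (sub_eq_zero.1 h5))
  have nb : b - 1 ≠ 0 := by
    intro h4
    have h5 := (key (a - 1) (b - 1) (by linear_combination h)).2 h4
    exact h1 (Prod.ext (sub_eq_zero.1 h5) (sub_eq_zero.1 h4))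
  have na' : a' - 1 ≠ 0 := by
    intro h4
    have h5 := (key (a' - 1) (b' - 1) (by linear_combination h')).1 h4
    exact h2 (Prod.ext (sub_eq_zero.1 h4) (sub_eq_zero.1 h5))
  have nb' : b' - 1 ≠ 0 := by
    intro h4
    have h5 := (key (a' - 1) (b' - 1) (by linear_combination h')).2 h4
    exact h2 (Prod.ext (sub_eq_zero.1 h5) (sub_eq_zero.1 h4))
  have naa : a - a' ≠ 0 := by
    intro h4
    have h5 := (key (a - a') (b - b') (by linear_combination h - h')).1 h4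
    exact h3 (Prod.ext (sub_eq_zero.1 h4) (sub_eq_zero.1 h5))
  have nbb : b - b' ≠ 0 := by
    intro h4
    have h5 := (key (a - a') (b - b') (by linear_combination h - h')).2 h4
    exact h3 (Prod.ext (sub_eq_zero.1 h5) (sub_eq_zero.1 h4))
  have nab : a - b ≠ 0 := by
    intro h4
    apply na
    linear_combination h + (1 - α) * h4
  have nab' : a' - b' ≠ 0 := by
    intro h4
    apply na'
    linear_combination h' + (1 - α) * h4
  have ncr : a * b' - a' * b ≠ 0 := by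
    intro h4
    apply nbb
    linear_combination (-α) * h4 + b' * h - b * h'
  refine ⟨?_, sub_ne_zero.1 nab, ?_⟩
  · have h4 : α * (a * b' + a' + b - a - b' - a' * b) = 0 := by
      linear_combination (b' - 1) * h - (b - 1) * h'
    exact (mul_eq_zero.1 h4).resolve_left hα
  · intro i j hi hj
    have h03 : a * b' + -a ≠ 0 := by
      rw [show a * b' + -a = a * (b' - 1) by ring]
      exact mul_ne_zero ha nb'
    have h04 : a * b' + -b' ≠ 0 := by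
      rw [show a * b' + -b' = b' * (a - 1) by ring]
      exact mul_ne_zero hb' na
    have h05 : a * b' + -(a' * b) ≠ 0 := by
      rw [← sub_eq_add_neg]
      exact ncr
    have h13 : a' + -a ≠ 0 := by
      rw [show a' + -a = -(a - a') by ring]
      exact neg_ne_zero.2 naa
    have h14 : a' + -b' ≠ 0 := by
      rw [← sub_eq_add_neg]
      exact nab'
    have h15 : a' + -(a' * b) ≠ 0 := by
      rw [show a' + -(a' * b) = -(a' * (b - 1)) by ring]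
      exact neg_ne_zero.2 (mul_ne_zero ha' nb)
    have h23 : b + -a ≠ 0 := by
      rw [show b + -a = -(a - b) by ring]
      exact neg_ne_zero.2 nab
    have h24 : b + -b' ≠ 0 := by
      rw [← sub_eq_add_neg]
      exact nbb
    have h25 : b + -(a' * b) ≠ 0 := by
      rw [show b + -(a' * b) = -(b * (a' - 1)) by ring]
      exact neg_ne_zero.2 (mul_ne_zero hb na')
    fin_cases i <;> fin_cases j <;>
      first
      | exact h03 | exact h04 | exact h05 | exact h13 | exact h14 | exact h15 | exact h23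
      | exact h24 | exact h25 | exact absurd hi (by decide) | exact absurd hj (by decide)

/-- **The six terms.** -/
theorem dat {κ P R g m1 n1 Z N : ℕ} {δ : ℝ} (L : Set ℂ) (hR : R ≤ g) (hg1 : 1 ≤ g)
    (hg : (g : ℝ) ≤ (Z : ℝ) ^ δ) (hZ : 1 ≤ Z) (hN : N = ((κ + 1).factorial) ^ (κ + 1))
    (hL1 : ∀ ζ : ℂ, ζ ^ N = 1 → ζ ∈ L)
    (hL2 : ∀ k : Fin 5, RatN (P + P) (k.1 + 1) κ R δ Z ⊆ L) {K : Type} [Field K] [NumberField K]
    (σ : K →+* ℂ) (hκ : Module.finrank ℚ K ≤ κ) (y : Fin P → K)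
    (hy : ∀ j, y j ≠ 0 ∧ mulHeight₁ (y j) ≤ (Z : ℝ)) {α u v u' v' : K}
    (fu fv fu' fv' : Fin P → ℤ) {D : ℝ}
    (hD : ((m1 : ℝ) + n1) * D ≤ (Z : ℝ) ^ δ) (bu : ∀ j, |(fu j : ℝ)| ≤ D)
    (bv : ∀ j, |(fv j : ℝ)| ≤ D) (bu' : ∀ j, |(fu' j : ℝ)| ≤ D) (bv' : ∀ j, |(fv' j : ℝ)| ≤ D)
    (hu : u = ∏ j, y j ^ fu j) (hv : v = ∏ j, y j ^ fv j) (hu' : u' = ∏ j, y j ^ fu' j)
    (hv' : v' = ∏ j, y j ^ fv' j) (hα : α ≠ 0) (hα1 : 1 - α ≠ 0)
    (h : α * u ^ (g * m1) + (1 - α) * v ^ (g * n1) = 1)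
    (h' : α * u' ^ (g * m1) + (1 - α) * v' ^ (g * n1) = 1)
    (h1 : (u ^ (g * m1), v ^ (g * n1)) ≠ (1, 1)) (h2 : (u' ^ (g * m1), v' ^ (g * n1)) ≠ (1, 1))
    (h3 : (u ^ (g * m1), v ^ (g * n1)) ≠ (u' ^ (g * m1), v' ^ (g * n1)))
    (hgcd : Nat.gcd (g * m1) (g * n1) = g) :
    ∃ B w, Dat L (g * m1, g * n1, σ α) B w := by
  classical
  have hprod : ∀ f : Fin P → ℤ, ∏ j, y j ^ f j ≠ 0 := fun f =>
    Finset.prod_ne_zero_iff.2 fun j _ => zpow_ne_zero _ (hy j).1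
  have u0 : u ≠ 0 := by rw [hu]; exact hprod _
  have v0 : v ≠ 0 := by rw [hv]; exact hprod _
  have u0' : u' ≠ 0 := by rw [hu']; exact hprod _
  have v0' : v' ≠ 0 := by rw [hv']; exact hprod _
  have hD0 : ∀ f : Fin P → ℤ, (∀ j, |(f j : ℝ)| ≤ D) → ∀ j, 0 ≤ D := fun f hf j =>
    (abs_nonneg _).trans (hf j)
  obtain ⟨W, hW⟩ : ∃ W : Fin 6 → K, W = ![u ^ m1 * v' ^ n1, u' ^ m1, v ^ n1, u ^ m1, v' ^ n1,
    u' ^ m1 * v ^ n1] := ⟨_, rfl⟩
  obtain ⟨F, hF⟩ : ∃ F : Fin 6 → Fin P → ℤ, F = ![fun j => m1 * fu j + n1 * fv' j,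
    fun j => m1 * fu' j, fun j => n1 * fv j, fun j => m1 * fu j, fun j => n1 * fv' j,
    fun j => m1 * fu' j + n1 * fv j] := ⟨_, rfl⟩
  obtain ⟨s, hs⟩ : ∃ s : Fin 6 → K, s = ![1, 1, 1, -1, -1, -1] := ⟨_, rfl⟩
  have hpow : ∀ (f : Fin P → ℤ) (k : ℕ), (∏ j, y j ^ f j) ^ k = ∏ j, y j ^ ((k : ℤ) * f j) := by
    intro f k
    rw [← Finset.prod_pow]
    refine Finset.prod_congr rfl fun j _ => ?_
    rw [← zpow_natCast, ← zpow_mul, mul_comm]
  have hmul : ∀ f f' : Fin P → ℤ, (∏ j, y j ^ f j) * (∏ j, y j ^ f' j) =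
      ∏ j, y j ^ (f j + f' j) := by
    intro f f'
    rw [← Finset.prod_mul_distrib]
    exact Finset.prod_congr rfl fun j _ => (zpow_add₀ (hy j).1 _ _).symm
  have hWF : ∀ i, W i = ∏ j, y j ^ F i j := by
    intro i
    rw [hW, hF]
    fin_cases i
    · show u ^ m1 * v' ^ n1 = ∏ j, y j ^ ((m1 : ℤ) * fu j + n1 * fv' j)
      rw [hu, hv', hpow, hpow, hmul]
    · show u' ^ m1 = ∏ j, y j ^ ((m1 : ℤ) * fu' j)
      rw [hu', hpow]
    · show v ^ n1 = ∏ j, y j ^ ((n1 : ℤ) * fv j)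
      rw [hv, hpow]
    · show u ^ m1 = ∏ j, y j ^ ((m1 : ℤ) * fu j)
      rw [hu, hpow]
    · show v' ^ n1 = ∏ j, y j ^ ((n1 : ℤ) * fv' j)
      rw [hv', hpow]
    · show u' ^ m1 * v ^ n1 = ∏ j, y j ^ ((m1 : ℤ) * fu' j + n1 * fv j)
      rw [hu', hv, hpow, hpow, hmul]
  have hb2 : ∀ a b : ℤ, |(a : ℝ)| ≤ D → |(b : ℝ)| ≤ D →
      |(((m1 : ℤ) * a + n1 * b : ℤ) : ℝ)| ≤ (Z : ℝ) ^ δ := by
    intro a b ha hb
    refine le_trans ?_ hD
    push_cast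
    refine (abs_add_le _ _).trans ?_
    rw [abs_mul, abs_mul, Nat.abs_cast, Nat.abs_cast, add_mul]
    exact add_le_add (mul_le_mul_of_nonneg_left ha (Nat.cast_nonneg _))
      (mul_le_mul_of_nonneg_left hb (Nat.cast_nonneg _))
  have hbm : ∀ a : ℤ, |(a : ℝ)| ≤ D → |(((m1 : ℤ) * a : ℤ) : ℝ)| ≤ (Z : ℝ) ^ δ := by
    intro a ha
    have h0 : |((0 : ℤ) : ℝ)| ≤ D := by
      simpa using (abs_nonneg _).trans ha
    simpa using hb2 a 0 ha h0
  have hbn : ∀ a : ℤ, |(a : ℝ)| ≤ D → |(((n1 : ℤ) * a : ℤ) : ℝ)| ≤ (Z : ℝ) ^ δ := by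
    intro a ha
    have h0 : |((0 : ℤ) : ℝ)| ≤ D := by
      simpa using (abs_nonneg _).trans ha
    simpa using hb2 0 a h0 ha
  have hFb : ∀ i j, |(F i j : ℝ)| ≤ (Z : ℝ) ^ δ := by
    intro i j
    rw [hF]
    fin_cases i
    · exact hb2 _ _ (bu j) (bv' j)
    · exact hbm _ (bu' j)
    · exact hbn _ (bv j)
    · exact hbm _ (bu j)
    · exact hbn _ (bv' j)
    · exact hb2 _ _ (bu' j) (bv j)
  have hs1 : ∀ i, s i = 1 ∨ s i = -1 := by
    intro i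
    rw [hs]
    fin_cases i
    · exact Or.inl rfl
    · exact Or.inl rfl
    · exact Or.inl rfl
    · exact Or.inr rfl
    · exact Or.inr rfl
    · exact Or.inr rfl
  obtain ⟨a, ha⟩ : ∃ a, a = u ^ (g * m1) := ⟨_, rfl⟩
  obtain ⟨b, hb⟩ : ∃ b, b = v ^ (g * n1) := ⟨_, rfl⟩
  obtain ⟨a', ha'⟩ : ∃ a', a' = u' ^ (g * m1) := ⟨_, rfl⟩
  obtain ⟨b', hb'⟩ : ∃ b', b' = v' ^ (g * n1) := ⟨_, rfl⟩
  have pa : (u ^ m1) ^ g = a := by rw [ha, ← pow_mul, mul_comm]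
  have pb : (v ^ n1) ^ g = b := by rw [hb, ← pow_mul, mul_comm]
  have pa' : (u' ^ m1) ^ g = a' := by rw [ha', ← pow_mul, mul_comm]
  have pb' : (v' ^ n1) ^ g = b' := by rw [hb', ← pow_mul, mul_comm]
  rw [← ha, ← hb] at h h1 h3
  rw [← ha', ← hb'] at h' h2 h3
  have a0 : a ≠ 0 := by rw [ha]; exact pow_ne_zero _ u0
  have b0 : b ≠ 0 := by rw [hb]; exact pow_ne_zero _ v0
  have a0' : a' ≠ 0 := by rw [ha']; exact pow_ne_zero _ u0'
  have b0' : b' ≠ 0 := by rw [hb']; exact pow_ne_zero _ v0'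
  obtain ⟨hdet, hab, hpair⟩ := det_six hα hα1 a0 b0 a0' b0' h h' h1 h2 h3
  have hA : (fun i => s i * W i ^ g) = ![a * b', a', b, -a, -b', -(a' * b)] := by
    funext i
    rw [hs, hW]
    fin_cases i
    · show 1 * (u ^ m1 * v' ^ n1) ^ g = a * b'
      rw [one_mul, mul_pow, pa, pb']
    · show 1 * (u' ^ m1) ^ g = a'
      rw [one_mul, pa']
    · show 1 * (v ^ n1) ^ g = b
      rw [one_mul, pb]
    · show -1 * (u ^ m1) ^ g = -a
      rw [pa, neg_one_mul]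
    · show -1 * (v' ^ n1) ^ g = -b'
      rw [pb', neg_one_mul]
    · show -1 * (u' ^ m1 * v ^ n1) ^ g = -(a' * b)
      rw [mul_pow, pa', pb, neg_one_mul]
  have hW0 : ∀ i, W i ≠ 0 := fun i => by rw [hWF]; exact hprod _
  have hs0 : ∀ i, s i ≠ 0 := by
    intro i
    rcases hs1 i with h | h <;> rw [h]
    · exact one_ne_zero
    · exact neg_ne_zero.2 one_ne_zero
  have hAi : ∀ i, s i * W i ^ g = (![a * b', a', b, -a, -b', -(a' * b)] : Fin 6 → K) i :=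
    fun i => congrFun hA i
  obtain ⟨B, g1, g2, g3, g4, g5⟩ := blocks (fun i => s i * W i ^ g)
    (fun i => mul_ne_zero (hs0 i) (pow_ne_zero _ (hW0 i))) (by
      rw [Finset.sum_congr rfl fun i _ => hAi i, Fin.sum_univ_six]
      show a * b' + a' + b + -a + -b' + -(a' * b) = 0
      linear_combination hdet) (by
      intro i j hi hj
      rw [hAi, hAi]
      exact hpair i j hi hj)
  have hblock : ∀ C : Finset (Fin 6), ∑ i ∈ C, s i * W i ^ g = 0 →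
      (∀ J ⊆ C, J.Nonempty → ∑ i ∈ J, s i * W i ^ g = 0 → J = C) → ∀ i ∈ C, ∀ j ∈ C,
      σ (W i / W j) ∈ L := by
    intro C hC hm i hi j hj
    rcases block hR hg hZ σ hκ y hy F hFb s hs1 W hWF C hC hm hi hj with h | ⟨k, k1, k2, k3⟩
    · refine hL1 _ ?_
      rw [hN]
      exact root_unity_bdd (by omega) h (deg σ hκ _).2
    · have h4 : C.card ≤ 6 := by
        have := Finset.card_le_univ C
        rwa [Fintype.card_fin] at this
      have h5 := hL2 ⟨k - 1, by omega⟩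
      have h6 : k - 1 + 1 = k := by omega
      simp only [h6] at h5
      exact h5 k3
  refine ⟨B, fun i => σ (W i), fun i => (map_ne_zero σ).2 (hW0 i), ?_, ?_, g5, ?_, ?_, ?_⟩
  · show σ (W 0) = σ (W 3) * σ (W 4)
    rw [← map_mul, hW]
    rfl
  · show σ (W 5) = σ (W 1) * σ (W 2)
    rw [← map_mul, hW]
    rfl
  · intro i j hij
    show σ (W i) / σ (W j) ∈ L
    rw [← map_div₀]
    by_cases hi : i ∈ B
    · exact hblock B g1 g3 i hi j (hij.1 hi)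
    · refine hblock Bᶜ g2 g4 i (Finset.mem_compl.2 hi) j (Finset.mem_compl.2 fun hj => hi ?_)
      exact hij.2 hj
  · show σ α * σ (W 3) ^ Nat.gcd (g * m1) (g * n1) + (1 - σ α) * σ (W 2) ^
      Nat.gcd (g * m1) (g * n1) = 1
    rw [hgcd, ← map_pow, ← map_pow, ← map_one σ, ← map_sub, ← map_mul, ← map_mul, ← map_add]
    congr 1
    rw [hW]
    show α * (u ^ m1) ^ g + (1 - α) * (v ^ n1) ^ g = 1
    rw [pa, pb, h]
  · show σ (W 3) ^ Nat.gcd (g * m1) (g * n1) ≠ σ (W 2) ^ Nat.gcd (g * m1) (g * n1)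
    rw [hgcd, ← map_pow, ← map_pow, hW]
    show σ ((u ^ m1) ^ g) ≠ σ ((v ^ n1) ^ g)
    rw [pa, pb]
    exact fun h5 => hab (σ.injective h5)

/-- small factors as further generators -/
theorem gen4 {K : Type} [Field K] {P : ℕ} (y : Fin P → K) (s : Fin 4 → K) (f : Fin P → ℤ)
    (i : Fin 4) {D : ℝ} (hD : 1 ≤ D) (hf : ∀ j, |(f j : ℝ)| ≤ D) :
    (s i * ∏ j, y j ^ f j = ∏ j : Fin (P + 4), (Fin.append y s) j ^
      (Fin.append f (fun l => if l = i then 1 else 0) : Fin (P + 4) → ℤ) j) ∧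
    ∀ j, |((Fin.append f (fun l => if l = i then 1 else 0) : Fin (P + 4) → ℤ) j : ℝ)| ≤ D := by
  constructor
  · rw [Fin.prod_univ_add, mul_comm]
    congr 1
    · exact Finset.prod_congr rfl fun j _ => by rw [Fin.append_left, Fin.append_left]
    · rw [Finset.prod_eq_single i]
      · rw [Fin.append_right, Fin.append_right, if_pos rfl, zpow_one]
      · intro l _ hl
        rw [Fin.append_right, Fin.append_right, if_neg hl, zpow_zero]
      · exact fun h => absurd (Finset.mem_univ _) h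
  · intro j
    refine Fin.addCases (fun j => ?_) (fun l => ?_) j
    · rw [Fin.append_left]
      exact hf j
    · rw [Fin.append_right]
      split_ifs
      · simpa using hD
      · simpa using zero_le_one.trans hD

/-- the points of a curve near the base point, in the coordinates relative to the base point -/
theorem points_rel {K : Type} [Field K] [NumberField K] {P m n Y : ℕ} (hm : 1 ≤ m) (hn : 1 ≤ n)
    (y : Fin P → K) {D : ℝ} {a b c : K} (ha : a ≠ 0) (hb : b ≠ 0) (hc : c ≠ 0) {P₀ : K × K}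
    (hP : P₀ ∈ points m n a b c)
    (h : ((2 * (Nat.card {ζ : K // ζ ^ m = 1} * Nat.card {ζ : K // ζ ^ n = 1}) : ℕ) : ℕ∞) <
        {Q | Q ∈ points m n a b c ∧ Generated Y y D (Q.1 / P₀.1) ∧
          Generated Y y D (Q.2 / P₀.2)}.encard) :
    a * P₀.1 ^ m / c ≠ 0 ∧ 1 - a * P₀.1 ^ m / c ≠ 0 ∧ ∃ u v u' v' : K, u ≠ 0 ∧ v ≠ 0 ∧ u' ≠ 0 ∧
      v' ≠ 0 ∧ Generated Y y D u ∧ Generated Y y D v ∧ Generated Y y D u' ∧ Generated Y y D v' ∧
      a * P₀.1 ^ m / c * u ^ m + (1 - a * P₀.1 ^ m / c) * v ^ n = 1 ∧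
      a * P₀.1 ^ m / c * u' ^ m + (1 - a * P₀.1 ^ m / c) * v' ^ n = 1 ∧
      (u ^ m, v ^ n) ≠ (1, 1) ∧ (u' ^ m, v' ^ n) ≠ (1, 1) ∧ (u ^ m, v ^ n) ≠ (u' ^ m, v' ^ n) := by
  classical
  obtain ⟨hx0, hy0, hP0⟩ := hP
  have hβ : 1 - a * P₀.1 ^ m / c = b * P₀.2 ^ n / c := by
    field_simp
    linear_combination -hP0
  have hα0 : a * P₀.1 ^ m / c ≠ 0 := div_ne_zero (mul_ne_zero ha (pow_ne_zero _ hx0)) hc
  have hβ0 : 1 - a * P₀.1 ^ m / c ≠ 0 := by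
    rw [hβ]
    exact div_ne_zero (mul_ne_zero hb (pow_ne_zero _ hy0)) hc
  refine ⟨hα0, hβ0, ?_⟩
  obtain ⟨k, hk⟩ : ∃ k, k = 2 * (Nat.card {ζ : K // ζ ^ m = 1} * Nat.card {ζ : K // ζ ^ n = 1}) :=
    ⟨_, rfl⟩
  rw [← hk] at h
  have h1 : ((k + 1 : ℕ) : ℕ∞) ≤ {Q | Q ∈ points m n a b c ∧ Generated Y y D (Q.1 / P₀.1) ∧
          Generated Y y D (Q.2 / P₀.2)}.encard := by
    push_cast
    exact Order.add_one_le_of_lt h
  obtain ⟨S0, hS0, hS0c⟩ := Set.exists_subset_encard_eq h1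
  have hS0f : S0.Finite := Set.finite_of_encard_eq_coe hS0c
  obtain ⟨S, hS⟩ := hS0f.exists_finset_coe
  have hSc : S.card = k + 1 := by
    rw [← hS, Set.encard_coe_eq_coe_finsetCard] at hS0c
    exact_mod_cast hS0c
  obtain ⟨S', hS'⟩ : ∃ S', S' = S.image fun Q : K × K => (Q.1 / P₀.1, Q.2 / P₀.2) := ⟨_, rfl⟩
  have hS'c : S'.card = k + 1 := by
    rw [hS', Finset.card_image_of_injective, hSc]
    intro Q Q' hQ
    obtain ⟨e1, e2⟩ := Prod.mk.inj hQ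
    exact Prod.ext ((div_left_inj' hx0).1 e1) ((div_left_inj' hy0).1 e2)
  have hprop : ∀ Q ∈ S', Q.1 ≠ 0 ∧ Q.2 ≠ 0 ∧ Generated Y y D Q.1 ∧ Generated Y y D Q.2 ∧
      a * P₀.1 ^ m / c * Q.1 ^ m + (1 - a * P₀.1 ^ m / c) * Q.2 ^ n = 1 := by
    intro Q hQ
    rw [hS', Finset.mem_image] at hQ
    obtain ⟨Q, hQ, rfl⟩ := hQ
    have hQ' : Q ∈ S0 := by rw [← hS]; exact hQ
    obtain ⟨⟨hx, hy, hP⟩, g1, g2⟩ := hS0 hQ'
    refine ⟨div_ne_zero hx hx0, div_ne_zero hy hy0, g1, g2, ?_⟩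
    show a * P₀.1 ^ m / c * (Q.1 / P₀.1) ^ m + (1 - a * P₀.1 ^ m / c) * (Q.2 / P₀.2) ^ n = 1
    rw [hβ, div_pow, div_pow]
    have e1 := pow_ne_zero m hx0
    have e2 := pow_ne_zero n hy0
    field_simp
    exact hP
  obtain ⟨Q, hQ, Q', hQ', c1, c2, c3⟩ := two_more hm hn S'
    (fun Q hQ => ⟨(hprop Q hQ).1, (hprop Q hQ).2.1⟩) (by rw [← hk, hS'c]; omega) (1, 1)
  obtain ⟨p1, p2, p3, p4, p5⟩ := hprop Q hQ
  obtain ⟨q1, q2, q3, q4, q5⟩ := hprop Q' hQ'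
  exact ⟨Q.1, Q.2, Q'.1, Q'.2, p1, p2, q1, q2, p3, p4, q3, q4, p5, q5, c1, c2, c3⟩

theorem count_aux {T M X V Q : ℝ} (h1 : T ≤ 36 * (M * (M * (64 * X ^ 36)))) (hX : 0 ≤ X)
    (h2 : X ≤ V * Q) (hM0 : 0 ≤ M) (hM : M ≤ 2 * V) (hV : 9216 ≤ V) (hQ : 0 ≤ Q) :
    T ≤ V * V ^ 2 * (V ^ 36 * Q ^ 36) := by
  have hV0 : 0 ≤ V := by linarith
  have h3 : X ^ 36 ≤ V ^ 36 * Q ^ 36 := by
    rw [← mul_pow]
    exact pow_le_pow_left₀ hX h2 36
  have h4 : M * M ≤ 4 * V ^ 2 := by nlinarith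
  have h5 : 0 ≤ X ^ 36 := pow_nonneg hX _
  have h6 : 0 ≤ V ^ 36 * Q ^ 36 := mul_nonneg (pow_nonneg hV0 _) (pow_nonneg hQ _)
  calc T ≤ 36 * (M * (M * (64 * X ^ 36))) := h1
    _ = 2304 * (M * M) * X ^ 36 := by ring
    _ ≤ 2304 * (4 * V ^ 2) * (V ^ 36 * Q ^ 36) :=
        mul_le_mul (mul_le_mul_of_nonneg_left h4 (by norm_num)) h3 h5 (by positivity)
    _ = 9216 * V ^ 2 * (V ^ 36 * Q ^ 36) := by ring
    _ ≤ _ := mul_le_mul_of_nonneg_right (mul_le_mul_of_nonneg_right hV (by positivity)) h6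

/-- **Few curves have more than `2 μ_m μ_n` generated points.** -/
theorem result (κ P : ℕ) (ε : ℝ) (hκ : 1 ≤ κ) (hε : 0 < ε) :
    ∃ (R : ℕ) (δ : ℝ), 0 < δ ∧ ∀ Y : ℕ, 1 ≤ Y → (exceptional κ P R δ Y).Finite ∧
      ((exceptional κ P R δ Y).ncard : ℝ) ≤ (Y : ℝ) ^ ε := by
  classical
  have hκR : (1 : ℝ) ≤ κ := by exact_mod_cast hκ
  obtain ⟨ε1, hε1⟩ : ∃ ε1 : ℝ, ε1 = ε / (72 * κ) := ⟨_, rfl⟩
  have hε10 : 0 < ε1 := by rw [hε1]; positivity
  choose R0 δ0 hδ0 H0 using fun k : Fin 5 =>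
    ratN_card (P + 4 + (P + 4)) (k.1 + 1) κ (by omega) ε1 hε10
  obtain ⟨R1, hR1⟩ : ∃ R1 : ℕ, ∀ k, R0 k ≤ R1 :=
    ⟨Finset.univ.sup R0, fun k => Finset.le_sup (Finset.mem_univ k)⟩
  obtain ⟨δ1, hδ1, hδ1'⟩ : ∃ δ1 : ℝ, 0 < δ1 ∧ ∀ k, δ1 ≤ δ0 k :=
    ⟨Finset.univ.inf' Finset.univ_nonempty δ0, (Finset.lt_inf'_iff _).2 fun k _ => hδ0 k,
      fun k => Finset.inf'_le _ (Finset.mem_univ k)⟩
  obtain ⟨NU, hNU⟩ : ∃ NU : ℕ, NU = ((κ + 1).factorial) ^ (κ + 1) := ⟨_, rfl⟩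
  have hNU0 : 0 < NU := by rw [hNU]; exact pow_pos (Nat.factorial_pos _) _
  obtain ⟨R2, hR2⟩ : ∃ R2 : ℕ, R2 = 9216 + 126 + NU := ⟨_, rfl⟩
  refine ⟨max R1 R2, min (δ1 / 3) (ε / 78), lt_min (by positivity) (by positivity),
    fun Y hY => fin_of_bound _ _ fun T hT => ?_⟩
  obtain ⟨δ, hδ⟩ : ∃ δ, δ = min (δ1 / 3) (ε / 78) := ⟨_, rfl⟩
  have hδ0' : 0 < δ := by rw [hδ]; exact lt_min (by positivity) (by positivity)
  have hδε : δ ≤ ε / 78 := by rw [hδ]; exact min_le_right _ _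
  have hδδ : δ + (δ + δ) ≤ δ1 := by
    have : δ ≤ δ1 / 3 := by rw [hδ]; exact min_le_left _ _
    linarith
  rw [← hδ] at hT
  have hY1 : (1 : ℝ) ≤ (Y : ℝ) := by exact_mod_cast hY
  have hY0 : (0 : ℝ) < (Y : ℝ) := by linarith
  rcases Finset.eq_empty_or_nonempty T with h0 | ⟨t0, ht0⟩
  · rw [h0, Finset.card_empty, Nat.cast_zero]
    positivity
  obtain ⟨Z, hZ⟩ : ∃ Z : ℕ, Z = Y ^ κ := ⟨_, rfl⟩
  have hZ1 : 1 ≤ Z := by rw [hZ]; exact Nat.one_le_pow _ _ hY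
  have hZR : (1 : ℝ) ≤ (Z : ℝ) := by exact_mod_cast hZ1
  have hYZ : (Y : ℝ) ≤ (Z : ℝ) := by
    rw [hZ]
    push_cast
    exact le_self_pow₀ hY1 (by omega)
  choose Lk hLk using fun k => (H0 k Z hZ1).1.exists_finset_coe
  have hLkc : ∀ k, ((Lk k).card : ℝ) ≤ 25 * (Z : ℝ) ^ ε1 := by
    intro k
    have h1 := (H0 k Z hZ1).2
    rw [← hLk k, Set.ncard_coe_finset] at h1
    refine h1.trans (mul_le_mul_of_nonneg_right ?_ (by positivity))
    have h2 : k.1 + 1 ≤ 5 := by omega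
    have h3 : ((k.1 + 1 : ℕ) : ℝ) ≤ 5 := by exact_mod_cast h2
    calc ((k.1 + 1 : ℕ) : ℝ) ^ 2 ≤ 5 ^ 2 := pow_le_pow_left₀ (by positivity) h3 2
      _ = 25 := by norm_num
  obtain ⟨L, hL⟩ : ∃ L : Finset ℂ, L = Finset.univ.biUnion Lk ∪
    (Polynomial.nthRoots NU (1 : ℂ)).toFinset := ⟨_, rfl⟩
  have hYδ : (1 : ℝ) ≤ (Y : ℝ) ^ δ := Real.one_le_rpow hY1 hδ0'.le
  have hbig : (R2 : ℝ) ≤ (Y : ℝ) ^ δ := by
    obtain ⟨h1, h2, -, h3, -⟩ := hT t0 ht0
    have h4 : R2 ≤ t0.1 := ((le_max_right _ _).trans h1).trans (Nat.gcd_le_left _ h2)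
    calc (R2 : ℝ) ≤ (t0.1 : ℝ) := by exact_mod_cast h4
      _ ≤ _ := h3
  have hY3 : (Y : ℝ) ^ δ * ((Y : ℝ) ^ δ * (Y : ℝ) ^ δ) ≤ (Z : ℝ) ^ δ1 := by
    rw [← Real.rpow_add hY0, ← Real.rpow_add hY0]
    exact (Real.rpow_le_rpow_of_exponent_le hY1 hδδ).trans
      (Real.rpow_le_rpow (by positivity) hYZ hδ1.le)
  obtain ⟨M, hM⟩ : ∃ M : ℕ, M = ⌊(Y : ℝ) ^ δ⌋₊ + 1 := ⟨_, rfl⟩
  have hMY : (M : ℝ) ≤ 2 * (Y : ℝ) ^ δ := by
    have h2 := Nat.floor_le (by positivity : (0 : ℝ) ≤ (Y : ℝ) ^ δ)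
    rw [hM]
    push_cast
    linarith
  -- the terms
  have hdat : ∀ t ∈ T, t.1 < M ∧ t.2.1 < M ∧ ∃ B w, Dat (L : Set ℂ) t B w := by
    intro t ht
    obtain ⟨h1, h2, h3, h4, h5, K, _, _, σ, y, a, b, c, h6, h7, h8, h9, h10, P₀, h11, h12, h13⟩ :=
      hT t ht
    refine ⟨?_, ?_, ?_⟩
    · rw [hM]
      exact Nat.lt_succ_of_le (Nat.le_floor h4)
    · rw [hM]
      exact Nat.lt_succ_of_le (Nat.le_floor h5)
    obtain ⟨hα, hα1, u, v, u', v', u0, v0, u0', v0', ⟨su, fu, b1, b2, b3⟩, ⟨sv, fv, b4, b5, b6⟩,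
      ⟨su', fu', b7, b8, b9⟩, ⟨sv', fv', b10, b11, b12⟩, e1, e2, e3, e4, e5⟩ :=
      points_rel h2 h3 y h8 h9 h10 h11 h13
    have s1 : su ≠ 0 := fun h => u0 (by rw [b3, h, zero_mul])
    have s2 : sv ≠ 0 := fun h => v0 (by rw [b6, h, zero_mul])
    have s3 : su' ≠ 0 := fun h => u0' (by rw [b9, h, zero_mul])
    have s4 : sv' ≠ 0 := fun h => v0' (by rw [b12, h, zero_mul])
    obtain ⟨g, hg⟩ : ∃ g, g = Nat.gcd t.1 t.2.1 := ⟨_, rfl⟩
    obtain ⟨m1, hm1⟩ : ∃ m1, t.1 = g * m1 := by rw [hg]; exact Nat.gcd_dvd_left _ _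
    obtain ⟨n1, hn1⟩ : ∃ n1, t.2.1 = g * n1 := by rw [hg]; exact Nat.gcd_dvd_right _ _
    rw [← hg] at h1
    have hg1 : 1 ≤ g := by
      have : R2 ≤ g := (le_max_right _ _).trans h1
      omega
    have hgt : g ≤ t.1 := by rw [hg]; exact Nat.gcd_le_left _ h2
    have hm1t : m1 ≤ t.1 := by rw [hm1]; exact Nat.le_mul_of_pos_left _ hg1
    have hn1t : n1 ≤ t.2.1 := by rw [hn1]; exact Nat.le_mul_of_pos_left _ hg1
    have hm1R : (m1 : ℝ) ≤ (Y : ℝ) ^ δ := le_trans (by exact_mod_cast hm1t) h4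
    have hn1R : (n1 : ℝ) ≤ (Y : ℝ) ^ δ := le_trans (by exact_mod_cast hn1t) h5
    have hpw : (Y : ℝ) ^ Module.finrank ℚ K ≤ (Z : ℝ) := by
      rw [hZ]
      push_cast
      exact pow_le_pow_right₀ hY1 h6
    have h2Y : (2 : ℝ) ≤ (Y : ℝ) ^ δ := by
      refine le_trans ?_ hbig
      exact_mod_cast (by rw [hR2]; omega : 2 ≤ R2)
    rw [hm1, hn1] at e1 e2 e3 e4 e5
    rw [hm1] at h12 hα hα1
    have key := dat (P := P + 4) (N := NU) (R := R1) (g := g) (m1 := m1) (n1 := n1) (δ := δ1)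
      (L : Set ℂ) ((le_max_left _ _).trans h1) hg1 ?_ hZ1 hNU ?_ ?_ σ h6
      (Fin.append y ![su, sv, su', sv']) ?_ (α := a * P₀.1 ^ (g * m1) / c) (u := u) (v := v)
      (u' := u') (v' := v') (Fin.append fu (fun l => if l = 0 then 1 else 0))
      (Fin.append fv (fun l => if l = 1 then 1 else 0))
      (Fin.append fu' (fun l => if l = 2 then 1 else 0))
      (Fin.append fv' (fun l => if l = 3 then 1 else 0)) (D := (Y : ℝ) ^ δ) ?_
      (gen4 y ![su, sv, su', sv'] fu 0 hYδ b2).2 (gen4 y ![su, sv, su', sv'] fv 1 hYδ b5).2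
      (gen4 y ![su, sv, su', sv'] fu' 2 hYδ b8).2 (gen4 y ![su, sv, su', sv'] fv' 3 hYδ b11).2
      (b3.trans (gen4 y ![su, sv, su', sv'] fu 0 hYδ b2).1)
      (b6.trans (gen4 y ![su, sv, su', sv'] fv 1 hYδ b5).1)
      (b9.trans (gen4 y ![su, sv, su', sv'] fu' 2 hYδ b8).1)
      (b12.trans (gen4 y ![su, sv, su', sv'] fv' 3 hYδ b11).1) hα hα1 e1 e2 e3 e4 e5
      (by rw [← hm1, ← hn1, hg])
    · obtain ⟨B, w, hw⟩ := key
      refine ⟨B, w, ?_⟩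
      have ht' : (g * m1, g * n1, σ (a * P₀.1 ^ (g * m1) / c)) = t :=
        Prod.ext hm1.symm (Prod.ext hn1.symm h12)
      rwa [ht'] at hw
    · calc (g : ℝ) ≤ (t.1 : ℝ) := by exact_mod_cast hgt
        _ ≤ (Y : ℝ) ^ δ := h4
        _ ≤ (Y : ℝ) ^ δ * ((Y : ℝ) ^ δ * (Y : ℝ) ^ δ) :=
            le_mul_of_one_le_right (by positivity) (one_le_mul_of_one_le_of_one_le hYδ hYδ)
        _ ≤ _ := hY3
    · intro ζ hζ
      rw [hL, Finset.mem_coe, Finset.mem_union]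
      right
      rw [Multiset.mem_toFinset, Polynomial.mem_nthRoots hNU0]
      exact hζ
    · intro k q hq
      rw [hL, Finset.mem_coe, Finset.mem_union]
      left
      refine Finset.mem_biUnion.2 ⟨k, Finset.mem_univ _, ?_⟩
      rw [← Finset.mem_coe, hLk]
      exact RatN.mono (hR1 k) (hδ1' k) hZ1 hq
    · intro j
      refine Fin.addCases (fun j => ?_) (fun l => ?_) j
      · rw [Fin.append_left]
        exact ⟨(h7 j).1, (h7 j).2.trans hpw⟩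
      · rw [Fin.append_right]
        fin_cases l
        · exact ⟨s1, b1.trans hpw⟩
        · exact ⟨s2, b4.trans hpw⟩
        · exact ⟨s3, b7.trans hpw⟩
        · exact ⟨s4, b10.trans hpw⟩
    · refine le_trans ?_ hY3
      rw [← mul_assoc]
      refine mul_le_mul_of_nonneg_right ?_ (by positivity)
      nlinarith
  have hcard := dat_card L M T hdat
  -- the count
  obtain ⟨Q, hQ⟩ : ∃ Q : ℝ, Q = (Z : ℝ) ^ ε1 := ⟨_, rfl⟩
  have hQ1 : 1 ≤ Q := by rw [hQ]; exact Real.one_le_rpow hZR hε10.le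
  have hLc : (L.card : ℝ) + 1 ≤ (Y : ℝ) ^ δ * Q := by
    have h1 : L.card ≤ ∑ k, (Lk k).card + NU := by
      rw [hL]
      refine (Finset.card_union_le _ _).trans (Nat.add_le_add Finset.card_biUnion_le ?_)
      exact (Multiset.toFinset_card_le _).trans (Polynomial.card_nthRoots _ _)
    have h2 : (∑ k, (Lk k).card : ℝ) ≤ ∑ k : Fin 5, 25 * (Z : ℝ) ^ ε1 :=
      Finset.sum_le_sum fun k _ => hLkc k
    rw [Finset.sum_const, Finset.card_univ, Fintype.card_fin, nsmul_eq_mul, ← hQ] at h2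
    have h3 : (L.card : ℝ) ≤ (∑ k, (Lk k).card : ℝ) + NU := by exact_mod_cast h1
    have h4 : (126 : ℝ) + NU ≤ (Y : ℝ) ^ δ := by
      refine le_trans ?_ hbig
      have h6 : 126 + NU ≤ R2 := by omega
      exact_mod_cast h6
    have h5 : (0 : ℝ) ≤ (NU : ℝ) := Nat.cast_nonneg _
    have h6 : (NU : ℝ) ≤ NU * Q := le_mul_of_one_le_right h5 hQ1
    have h7 : (L.card : ℝ) + 1 ≤ 125 * Q + NU + 1 := by
      push_cast at h2
      linarith
    refine h7.trans (le_trans ?_ (mul_le_mul_of_nonneg_right h4 (zero_le_one.trans hQ1)))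
    rw [add_mul]
    linarith
  have hTc : (T.card : ℝ) ≤ (Y : ℝ) ^ δ * ((Y : ℝ) ^ δ) ^ 2 * (((Y : ℝ) ^ δ) ^ 36 * Q ^ 36) := by
    have h1 : (T.card : ℝ) ≤ 36 * ((M : ℝ) * ((M : ℝ) * (64 * ((L.card : ℝ) + 1) ^ 36))) := by
      exact_mod_cast hcard
    have h4 : (9216 : ℝ) ≤ (Y : ℝ) ^ δ := by
      refine le_trans ?_ hbig
      have h5 : 9216 ≤ R2 := by omega
      exact_mod_cast h5
    exact count_aux h1 (add_nonneg (Nat.cast_nonneg _) zero_le_one) hLc (Nat.cast_nonneg _) hMY h4 (zero_le_one.trans hQ1)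
  have hQ36 : Q ^ 36 = (Y : ℝ) ^ (ε / 2) := by
    rw [hQ, hZ, ← Real.rpow_natCast, ← Real.rpow_mul (by positivity)]
    push_cast
    rw [← Real.rpow_natCast, ← Real.rpow_mul hY0.le]
    congr 1
    rw [hε1]
    push_cast
    field_simp
    norm_num
  calc (T.card : ℝ) ≤ (Y : ℝ) ^ δ * ((Y : ℝ) ^ δ) ^ 2 * (((Y : ℝ) ^ δ) ^ 36 * Q ^ 36) := hTc
    _ = (Y : ℝ) ^ (39 * δ + ε / 2) := by
        rw [hQ36, Real.rpow_add hY0, ← mul_assoc]
        congr 1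
        rw [mul_comm 39 δ, Real.rpow_mul hY0.le]
        rw [show (39 : ℝ) = ((39 : ℕ) : ℝ) by norm_num, Real.rpow_natCast]
        ring
    _ ≤ (Y : ℝ) ^ ε := Real.rpow_le_rpow_of_exponent_le hY1 (by linarith)

end Pool.Agent.Results.MP_10e784_ag.DiagonalCurvesGenerated
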