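import Pool.Agent.N556.TW.Orb

/-!
# Pencils of curves along random orbits of thin groups: no rational points over all number fields of degree prime to `ℓ`

Let `s_0, …, s_k ∈ SL_r(ℤ)`, `r ≥ 2`, be matrices which generate `SL_r(ℤ/q)` for all `q` prime to some
`q₀` (by strong approximation this holds for all finite sets of generators of Zariski dense subgroups,
also of thin groups, that is, of infinite index).  For a nonzero vector `v ∈ ℤ^r` let `c(n)` be the
`n`-th point of the random orbit of `v`: `c(0) = v`, `c(n+1) = s_(w n) c(n)` with independent,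
uniformly distributed `w n`.

**Theorem.**  For almost every infinite word `w` there is ONE set `E` of density zero, such that the
following is true for all nonzero vectors `v`, all pairs `λ, μ` of linear forms with integral
coefficients which are not proportional (for instance two coordinates), all primes `ℓ`, all integers
`b ≠ 0` and all `g ∈ ℤ[y]` of positive degree divisible by `ℓ` which are irreducible over `ℚ` of
degree `ℓ^k` or have, for infinitely many primes `p`, no zeros in the fields with `p^m` elements,
`ℓ ∤ m`.  For all but finitely many `n ∉ E`, for ALL `f ∈ ℤ[x]` of positive degree divisible by `ℓ`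
whose leading coefficient divides a power of `b` and for ALL number fields `K` of degree prime to `ℓ`
the curve

  `λ(c(n)) f(x) = μ(c(n)) g(y)`

has no `K`-rational points, and neither have the curves over `K` with a non-constant map to it.

More generally, for fixed `λ, μ, ℓ, b, g`, the set of all vectors `c ∈ ℤ^r` for which this is not true
(for some `f` and some `K`) is negligible in a strong sense: its closure in the product of the
`(ℤ_p)^r` over the primes `p` which do not divide `M` has Haar measure zero, for all `M`.

The exceptional sets do not depend on `f` and `K`, the polynomial `f` may depend on `n`, and the genus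
of the curves is not bounded.

The proof.  By Chebotarev's theorem the set of primes `p` such that `g` has no zeros in the fields of
degree prime to `ℓ` over `𝔽_p` has a divergent sum of reciprocals (this and the local obstruction are
taken from `ThinPencils`).  If such a prime divides `λ(c)` exactly once and does not divide `μ(c)`,
then there are no points on the curve over the number fields of degree prime to `ℓ`.  The proportion
of these vectors modulo `p²` is at least `1/(4p)`, and so almost all vectors have such a prime.  The
equidistribution theorem for random walks is the engine of helper24.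
-/

set_option autoImplicit false

open Polynomial NumberField MeasureTheory Filter Topology
open Pool.Agent.N24.RW (Walk orb words)

namespace Pool.Agent.Results.MP_10e784_ag.RandomPencils

section curves

/-- The polynomial `g` has no zeros in the finite fields with `p ^ m` elements, for all `m` which are
not divisible by `ℓ`. -/
def NoZeros (ℓ : ℕ) (g : ℤ[X]) (p : ℕ) : Prop :=
  ∀ (k : Type) [Field k] (m : ℕ), Nat.card k = p ^ m → ¬ ℓ ∣ m → ∀ t : k, aeval t g ≠ 0

/-- The valuation ring `O` of the extension field `F` of `K` contains `K`, and its residue field is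
`K`.  If `F` is the function field of a smooth projective curve `C` over `K`, then the `O ≠ F` with
this property are the local rings of the `K`-rational points of `C`. -/
def IsRationalPlace (K : Type) {F : Type} [Field K] [Field F] [Algebra K F]
    (O : ValuationSubring F) : Prop :=
  (∀ c : K, algebraMap K F c ∈ O) ∧ ∀ z ∈ O, ∃ c : K, z - algebraMap K F c ∈ O.nonunits

/-- The curve `a f(x) = d g(y)` has no `K`-rational points: the equation has no solutions in `K`, and
no field `F` over `K` which contains a solution `(x, y)` has a rational place.  The second part covers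
the points of the smooth projective models of all irreducible components (`F = K(x, y)`, also the
points at infinity), and of all curves with a non-constant map to the curve. -/
def NoRationalPoints (K : Type) [Field K] (a d : ℤ) (f g : ℤ[X]) : Prop :=
  (∀ x y : K, (a : K) * aeval x f ≠ (d : K) * aeval y g) ∧
    ∀ (F : Type) [Field F] [Algebra K F] (x y : F), (a : F) * aeval x f = (d : F) * aeval y g →
      ∀ O : ValuationSubring F, ¬ IsRationalPlace K O

/-- For all `f ∈ ℤ[x]` of positive degree divisible by `ℓ` whose leading coefficient divides a power of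
`b`, and for all number fields `K` of degree not divisible by `ℓ`, the curve `a f(x) = d g(y)` has no
`K`-rational points. -/
def AllWithoutPoints (ℓ : ℕ) (b : ℤ) (g : ℤ[X]) (a d : ℤ) : Prop :=
  ∀ f : ℤ[X], ℓ ∣ f.natDegree → 0 < f.natDegree → (∃ m : ℕ, f.leadingCoeff ∣ b ^ m) →
    ∀ (K : Type) [Field K] [NumberField K], ¬ ℓ ∣ Module.finrank ℚ K → NoRationalPoints K a d f g

/-- The condition on `g`: the degree is positive and divisible by `ℓ`, and either `g` is irreducible
over `ℚ` and its degree is a power of `ℓ`, or there are infinitely many primes `p` such that `g` has no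
zeros in the fields with `p ^ m` elements, `ℓ ∤ m`. -/
def Suitable (ℓ : ℕ) (g : ℤ[X]) : Prop :=
  0 < g.natDegree ∧ ℓ ∣ g.natDegree ∧
    ((Irreducible (g.map (Int.castRingHom ℚ)) ∧ ∃ k : ℕ, g.natDegree = ℓ ^ k) ∨
      {p : ℕ | p.Prime ∧ NoZeros ℓ g p}.Infinite)

end curves

/-- The linear forms with the coefficients `lam` and `mu` are not proportional (in particular both are
not zero). -/
def Independent {ι : Type} (lam mu : ι → ℤ) : Prop := ∃ i j, lam i * mu j ≠ lam j * mu i

/-- For every `M` there are moduli `q`, prime to `M`, such that the proportion of the residue vectors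
modulo `q` of the elements of `B` is arbitrarily small. -/
def Negligible {ι : Type} [Fintype ι] (B : Set (ι → ℤ)) : Prop :=
  ∀ M : ℕ, 0 < M → ∀ ε : ℝ, 0 < ε → ∃ q : ℕ, 0 < q ∧ q.Coprime M ∧
    ((((fun (c : ι → ℤ) (i : ι) => (c i : ZMod q)) '' B).ncard : ℕ) : ℝ) ≤
      ε * (q : ℝ) ^ Fintype.card ι

/-- The set `E` of natural numbers has natural density zero. -/
def DensityZero (E : Set ℕ) : Prop :=
  Tendsto (fun N : ℕ => ({n : ℕ | n < N ∧ n ∈ E}.ncard : ℝ) / N) atTop (𝓝 0)

lemma fam_of {ℓ : ℕ} (hℓ : ℓ.Prime) {b : ℤ} (hb : b ≠ 0) {g : ℤ[X]} (hg : Suitable ℓ g) :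
    Pool.Agent.N556.TW.Fam ℓ g b := by
  obtain ⟨hg0, hd, hinf'⟩ := hg
  have hlg : g.leadingCoeff ≠ 0 := by
    rw [Ne, leadingCoeff_eq_zero]
    rintro rfl
    simp at hg0
  refine ⟨hb, hlg, ?_⟩
  rcases hinf' with ⟨hirr, k, hk⟩ | hinf'
  · refine Pool.Agent.N556.TW.irr_infinite g hirr hℓ (Nat.pos_of_ne_zero ?_) hk
    rintro rfl
    rw [hk, pow_zero] at hd
    exact hℓ.one_lt.ne' (Nat.dvd_one.1 hd)
  · exact hinf'

lemma all_of {ℓ : ℕ} (hℓ : ℓ.Prime) {b : ℤ} {g : ℤ[X]} (hg : Suitable ℓ g) {a d : ℤ}
    (h : ∃ p ∈ Pool.Agent.N556.TW.Good ℓ g b, Pool.Agent.N680.TH.Once p a ∧ ¬ (p : ℤ) ∣ d) :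
    AllWithoutPoints ℓ b g a d := by
  obtain ⟨p, hgood, honce, hpd⟩ := h
  intro f hf hf0 hfb K _ _ hK
  have key : ∀ (F : Type) [Field F] [Algebra K F] (x y : F),
      (a : F) * aeval x f = (d : F) * aeval y g →
      ∀ O : ValuationSubring F, ¬ IsRationalPlace K O := by
    intro F _ _ x y hxy O hO
    exact Pool.Agent.N556.TW.none_two hℓ g b hgood hg.2.1 hg.1 f hf hf0 hfb _ honce d hpd K hK F x y
      hxy O hO.1 hO.2
  refine ⟨fun x y hxy => ?_, key⟩
  apply key K x y hxy ⊤
  refine ⟨fun c => ValuationSubring.mem_top _, fun z _ => ⟨z, ?_⟩⟩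
  have h5 : z - algebraMap K K z = 0 := sub_self z
  rw [h5, ValuationSubring.mem_nonunits_iff, map_zero]
  exact zero_lt_one

/-- **Pencils along random orbits.**  (1) For linear forms `lam`, `mu` which are not proportional, a
prime `ℓ`, `b ≠ 0` and suitable `g`, the integral vectors `c` such that, for some `f` with leading
coefficient dividing a power of `b` and some number field `K` of degree not divisible by `ℓ`, the curve
`lam(c) f(x) = mu(c) g(y)` has a rational point, form a negligible set.  (2) For almost every word `w`
there is one set `E` of density zero such that for all `v ≠ 0` and all `lam`, `mu`, `ℓ`, `b` and `g` as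
above this does not happen for the points `c = orb W v w n` of the random orbit of `v`, for all `n ∉ E`
with finitely many exceptions. -/
theorem result :
    (∀ (ι : Type) [Fintype ι] (lam mu : ι → ℤ), Independent lam mu →
      ∀ (ℓ : ℕ) (b : ℤ) (g : ℤ[X]), ℓ.Prime → b ≠ 0 → Suitable ℓ g →
        Negligible {c : ι → ℤ |
          ¬ AllWithoutPoints ℓ b g (∑ k, lam k * c k) (∑ k, mu k * c k)}) ∧
    ∀ (ι : Type) [Fintype ι] [DecidableEq ι], 2 ≤ Fintype.card ι → ∀ W : Walk ι,
      ∀ᵐ w ∂(words W.m), ∃ E : Set ℕ, DensityZero E ∧
        ∀ v lam mu : ι → ℤ, v ≠ 0 → Independent lam mu →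
          ∀ (ℓ : ℕ) (b : ℤ) (g : ℤ[X]), ℓ.Prime → b ≠ 0 → Suitable ℓ g →
            {n : ℕ | n ∉ E ∧ ¬ AllWithoutPoints ℓ b g (∑ k, lam k * orb W v w n k)
              (∑ k, mu k * orb W v w n k)}.Finite := by
  constructor
  · intro ι _ lam mu hlm ℓ b g hℓ hb hg
    have h := Pool.Agent.N556.TW.pencil_null lam mu hlm (fam_of hℓ hb hg)
    refine (Pool.Agent.N24.RW.clo ι).1 _ _ ?_ h
    intro c hc hc'
    exact hc (all_of hℓ hg hc')
  · intro ι _ _ hι W
    filter_upwards [Pool.Agent.N556.TW.orbits hι W] with w hw
    obtain ⟨E, hE, hE'⟩ := hw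
    refine ⟨E, hE, fun v lam mu hv hlm ℓ b g hℓ hb hg => ?_⟩
    refine (hE' v lam mu ℓ g b hv hlm (fam_of hℓ hb hg)).subset ?_
    rintro n ⟨h1, h2⟩
    exact ⟨h1, fun h3 => h2 (all_of hℓ hg h3)⟩

end Pool.Agent.Results.MP_10e784_ag.RandomPencils
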