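import Pool.Agent.N556.TW.Fin

/-!
# Thin pencils of curves: no rational points over all number fields of degree prime to `ℓ`

Let `P(t) = ∑ α_i t^(θ_i)` be a generalised polynomial (a finite sum of real powers with real
coefficients) whose leading exponent is positive and not an integer and whose leading coefficient is
positive, for instance `t^(√2)` or `π t^(3/10)`, and let `a(n)` be the integral part of `P(n)`.

**Theorem.**  There is a set `E` of natural numbers, of density zero in the natural numbers and in the
prime numbers, which depends only on `P`, such that the following is true for all primes `ℓ`, all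
integers `b ≠ 0` and all `g ∈ ℤ[y]` of positive degree divisible by `ℓ` which are irreducible over `ℚ`
of degree `ℓ^k` or have, for infinitely many primes `p`, no zeros in the fields with `p^m` elements,
`ℓ ∤ m`.  For all but finitely many `n ∉ E`, for ALL `f ∈ ℤ[x]` of positive degree divisible by `ℓ`
whose leading coefficient divides a power of `b` (so for all monic `f` if `b = 1`) and for ALL number
fields `K` of degree prime to `ℓ` the curve

  `a(n) f(x) = g(y)`

has no `K`-rational points: there are no solutions in `K`, the smooth projective model has no rational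
points either, and the same is true for all curves over `K` with a non-constant map to it.

The exceptional set is the same for all `f`, `g`, `K` and `ℓ`, and the finitely many exceptional `n`
outside `E` do not depend on `f` and `K`; the polynomial `f` may depend on `n`, and the genus of the
curves is not bounded.  The condition on the degree of `K` cannot be omitted, because for
`f = x^ℓ`, `g = y^ℓ + c` the curve has points with `x = 0` over fields of degree at most `ℓ`.

The proof.  If `g` has no zeros in the fields of degree prime to `ℓ` over `𝔽_p` for infinitely many `p`,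
then the Galois group of `g` has an element without cycles of length prime to `ℓ` on the zeros; by
Chebotarev's theorem the set of primes with this property has a divergent sum of reciprocals.  For `g`
irreducible of degree `ℓ^k` the Sylow subgroup for `ℓ` of the Galois group is transitive on the zeros
and so has an element without fixed points; all its cycle lengths are divisible by `ℓ`.  If `p` divides
`a` exactly once and the degree of `K` is prime to `ℓ`, then there is a place of `K` above `p` whose
ramification index `e` and degree are prime to `ℓ`; the valuation of `g(y)` is a multiple of `ℓ` for all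
`y ∈ K` and it is not negative, while the valuation of `a f(x)` is positive or not a multiple of `ℓ`, and
it is positive only if it is at least `e`, so that `g` would have a zero in the residue field.  At
infinity one obtains `lc(g) z^ℓ = a lc(f)`, which is also impossible.  Almost all `a(n)` are divisible
exactly once by a prime of the set (equidistribution engine of helper666).
-/

set_option autoImplicit false

open Polynomial NumberField

namespace Pool.Agent.Results.MP_10e784_ag.ThinPencils

section density

/-- `E` has density zero: for `N → ∞` it contains `o(N)` of the natural numbers `n ∈ (N, 2N]`. -/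
def Null (E : Set ℕ) : Prop :=
  ∀ ε : ℝ, 0 < ε → ∃ N₀ : ℕ, ∀ N : ℕ, N₀ ≤ N →
    ({n : ℕ | N < n ∧ n ≤ 2 * N ∧ n ∈ E}.ncard : ℝ) ≤ ε * N

/-- `E` has density zero in the primes: for `N → ∞` the proportion of the primes in `(N, 2N]` which
are in `E` tends to `0`. -/
def NullInPrimes (E : Set ℕ) : Prop :=
  ∀ ε : ℝ, 0 < ε → ∃ N₀ : ℕ, ∀ N : ℕ, N₀ ≤ N →
    ({p : ℕ | p.Prime ∧ N < p ∧ p ≤ 2 * N ∧ p ∈ E}.ncard : ℝ) ≤
      ε * ({p : ℕ | p.Prime ∧ N < p ∧ p ≤ 2 * N}.ncard : ℝ)

/-- `∑ i ∈ I, α i * t ^ i` is a generalised polynomial with leading exponent `θ`, which is positive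
and not an integer, and with positive leading coefficient. -/
def Admissible (I : Finset ℝ) (α : ℝ → ℝ) (θ : ℝ) : Prop :=
  θ ∈ I ∧ (∀ i ∈ I, i ≤ θ) ∧ 0 < θ ∧ (∀ m : ℕ, θ ≠ m) ∧ 0 < α θ

/-- The integral part of the value at `n` of the generalised polynomial `∑ i ∈ I, α i * t ^ i`. -/
noncomputable def value (I : Finset ℝ) (α : ℝ → ℝ) (n : ℕ) : ℤ := ⌊∑ i ∈ I, α i * (n : ℝ) ^ i⌋

end density

section curves

/-- The polynomial `g` has no zeros in the finite fields with `p ^ m` elements, for all `m` which are
not divisible by `ℓ`. -/
def NoZeros (ℓ : ℕ) (g : ℤ[X]) (p : ℕ) : Prop :=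
  ∀ (k : Type) [Field k] (m : ℕ), Nat.card k = p ^ m → ¬ ℓ ∣ m → ∀ t : k, aeval t g ≠ 0

/-- The valuation ring `O` of the extension field `F` of `K` contains `K`, and its residue field is
`K`.  If `F` is the function field of a smooth projective curve `C` over `K`, then the `O ≠ F` with
this property are the local rings of the `K`-rational points of `C`. -/
def IsRationalPlace (K : Type) {F : Type} [Field K] [Field F] [Algebra K F]
    (O : ValuationSubring F) : Prop :=
  (∀ c : K, algebraMap K F c ∈ O) ∧ ∀ z ∈ O, ∃ c : K, z - algebraMap K F c ∈ O.nonunits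

/-- The curve `a f(x) = g(y)` has no `K`-rational points: the equation has no solutions in `K`, and no
field `F` over `K` which contains a solution `(x, y)` has a rational place.  The second part covers the
points of the smooth projective models of all irreducible components (`F = K(x, y)`, also the points
at infinity), and of all curves with a non-constant map to the curve. -/
def NoRationalPoints (K : Type) [Field K] (a : ℤ) (f g : ℤ[X]) : Prop :=
  (∀ x y : K, (a : K) * aeval x f ≠ aeval y g) ∧
    ∀ (F : Type) [Field F] [Algebra K F] (x y : F), (a : F) * aeval x f = aeval y g →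
      ∀ O : ValuationSubring F, ¬ IsRationalPlace K O

/-- The condition on `g`: the degree is positive and divisible by `ℓ`, and either `g` is irreducible
over `ℚ` and its degree is a power of `ℓ`, or there are infinitely many primes `p` such that `g` has no
zeros in the fields with `p ^ m` elements, `ℓ ∤ m`. -/
def Suitable (ℓ : ℕ) (g : ℤ[X]) : Prop :=
  0 < g.natDegree ∧ ℓ ∣ g.natDegree ∧
    ((Irreducible (g.map (Int.castRingHom ℚ)) ∧ ∃ k : ℕ, g.natDegree = ℓ ^ k) ∨
      {p : ℕ | p.Prime ∧ NoZeros ℓ g p}.Infinite)

end curves

/-- **Thin pencils of curves without rational points.**  Let `a(n)` be the integral part of the value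
at `n` of a generalised polynomial whose leading exponent is positive and not an integer, with
positive leading coefficient.  There is a set `E` of density zero in the natural numbers and in the
primes, such that the following is true for all primes `ℓ`, all `b ≠ 0`, and all suitable integral
polynomials `g`, for instance the irreducible ones of degree `ℓ ^ k`, `k ≥ 1`.  For all `n ∉ E` with
finitely many exceptions, all integral polynomials `f` of positive degree divisible by `ℓ` whose
leading coefficient divides a power of `b`, and all number fields `K` of degree not divisible by `ℓ`,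
the curve `a(n) f(x) = g(y)` has no `K`-rational points. -/
theorem result (I : Finset ℝ) (α : ℝ → ℝ) (θ : ℝ) (h : Admissible I α θ) :
    ∃ E : Set ℕ, Null E ∧ NullInPrimes E ∧
      ∀ (ℓ : ℕ) (b : ℤ) (g : ℤ[X]), ℓ.Prime → b ≠ 0 → Suitable ℓ g →
        {n : ℕ | n ∉ E ∧ ¬ ∀ f : ℤ[X], ℓ ∣ f.natDegree → 0 < f.natDegree →
          (∃ m : ℕ, f.leadingCoeff ∣ b ^ m) → ∀ (K : Type) [Field K] [NumberField K],
            ¬ ℓ ∣ Module.finrank ℚ K → NoRationalPoints K (value I α n) f g}.Finite := by
  classical
  obtain ⟨E, h1, h2, h3⟩ := Pool.Agent.N556.TW.fin h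
  refine ⟨E, ?_, ?_, ?_⟩
  · intro ε hε
    obtain ⟨N₀, hN₀⟩ := h1 ε hε
    refine ⟨N₀, fun N hN => ?_⟩
    have h4 := hN₀ N hN
    have e1 : {n : ℕ | N < n ∧ n ≤ 2 * N ∧ n ∈ E} = {t : ℕ | t ∈ Finset.Ioc N (2 * N) ∧ t ∈ E} := by
      ext t
      simp only [Set.mem_ofPred_eq, Finset.mem_Ioc]
      tauto
    have e2 : (Finset.Ioc N (2 * N)).card = N := by
      rw [Nat.card_Ioc]
      omega
    rw [e1]
    rwa [e2] at h4
  · intro ε hε
    obtain ⟨N₀, hN₀⟩ := h2 ε hε
    refine ⟨N₀, fun N hN => ?_⟩
    have h4 := hN₀ N hN
    have e0 : ∀ t, t ∈ Pool.Agent.N666.VE.primes N ↔ t.Prime ∧ N < t ∧ t ≤ 2 * N := by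
      intro t
      unfold Pool.Agent.N666.VE.primes
      rw [Finset.mem_filter, Finset.mem_Ioc]
      tauto
    have e1 : {p : ℕ | p.Prime ∧ N < p ∧ p ≤ 2 * N ∧ p ∈ E} =
        {t : ℕ | t ∈ Pool.Agent.N666.VE.primes N ∧ t ∈ E} := by
      ext t
      simp only [Set.mem_ofPred_eq, e0]
      tauto
    have e2 : {p : ℕ | p.Prime ∧ N < p ∧ p ≤ 2 * N} = ↑(Pool.Agent.N666.VE.primes N) := by
      ext t
      simp only [Set.mem_ofPred_eq, Finset.mem_coe, e0]
    rw [e1, e2, Set.ncard_coe_finset]
    exact h4
  · rintro ℓ b g hℓ hb ⟨hg0, hg, hinf'⟩
    have hinf : {p : ℕ | p.Prime ∧ NoZeros ℓ g p}.Infinite := by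
      rcases hinf' with ⟨hirr, k, hk⟩ | hinf'
      · refine Pool.Agent.N556.TW.irr_infinite g hirr hℓ (Nat.pos_of_ne_zero ?_) hk
        rintro rfl
        rw [hk, pow_zero] at hg
        exact hℓ.one_lt.ne' (Nat.dvd_one.1 hg)
      · exact hinf'
    have hlg : g.leadingCoeff ≠ 0 := by
      rw [Ne, leadingCoeff_eq_zero]
      rintro rfl
      simp at hg0
    refine (h3 ℓ g b ⟨hb, hlg, hinf⟩).subset ?_
    rintro n ⟨hn, hn'⟩
    refine ⟨hn, ?_⟩
    rintro ⟨p, hgood, honce⟩
    apply hn'
    intro f hf hf0 hfb K _ _ hK
    have key : ∀ (F : Type) [Field F] [Algebra K F] (x y : F),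
        ((value I α n : ℤ) : F) * aeval x f = aeval y g →
        ∀ O : ValuationSubring F, ¬ IsRationalPlace K O := by
      intro F _ _ x y hxy O hO
      exact Pool.Agent.N556.TW.none hℓ g b hgood hg hg0 f hf hf0 hfb _ honce K hK F x y hxy O
        hO.1 hO.2
    refine ⟨fun x y hxy => ?_, key⟩
    apply key K x y hxy ⊤
    refine ⟨fun c => ValuationSubring.mem_top _, fun z _ => ⟨z, ?_⟩⟩
    have h5 : z - algebraMap K K z = 0 := sub_self z
    rw [h5, ValuationSubring.mem_nonunits_iff, map_zero]
    exact zero_lt_one

end Pool.Agent.Results.MP_10e784_ag.ThinPencils
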