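import Pool.Agent.N419.HU.Uni
import Pool.Agent.H458.Sp.UHyper

set_option autoImplicit false

/-!
# One bound for the rational points given by recurrences on all curves of bounded degree

Consider families `x(h)` of vectors over a field `L ⊆ ℂ`, indexed by an arbitrary group `H`, with
coordinates given by iterated linear recurrences (`IterVec s r e`): there are invertible matrices
`X_1(h), ..., X_s(h)` of size `r` over `L` such that, for all `g` in `H`, the matrix
`X_l(g h) X_l(h)⁻¹` is for all `h` a polynomial of degree at most `e` in each of the entries of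
`X_i(h)`, `X_i(h)⁻¹`, `i < l`, and the coordinates of `x(h)` are such polynomials in the entries of
all these matrices.  The case `s = 1` contains all orbits `M ρ(h) v` of representations
`ρ : H → GL_r(L)`, and for `H = ℤ` all (two-sided) linear recurrence sequences of order `r`.

**(1)** For all `n, d, s, r, e` there is one number `B` such that, for all fields `L ⊆ ℂ` and all
pairs `Z ⊆ X` of closed subsets of projective `n`-space over `L` given by forms of degree at most
`d` such that all rational curves of `X` over `ℂ` lie in `Z`, every such family of points of `X(L)`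
consists of at most `B` points outside of `Z`.  The number `B` depends neither on `X` nor on `L`.

**(2)** For all `D, s, r, e` there is `B` such that on all curves `y² = f(x)` over all fields
`L ⊆ ℂ`, `f` squarefree of degree between `5` and `D` (all hyperelliptic curves of bounded genus at
least two over `ℚ`, and over all number fields of any degree), every family of rational points
`(v(h) / u(h), w(h) / u(h))`, where `u, v, w` are given by iterated recurrences as above, consists
of at most `B` points.

Method: if there is no bound, then an ultraproduct of such families on varieties `X_i` given by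
forms of degree at most `d` gives, by the theory of iterated recurrences of the starting files
(project IR of helper377 and others), a rational curve on the ultraproduct of the `X_i`, not
contained in the exceptional set; it is defined over the ultraproduct of copies of `ℂ`, and so some
`X_i` has such a curve.  For (2), hyperelliptic curves of genus at least two have no nonconstant
rational parametrisation (helper458).
-/

namespace Pool.Agent.Results.MP_10e784_ag.UniformRecurrentPoints

open MvPolynomial Pool.Agent.Y377.ST Pool.Agent.N419.HU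

/-- `u(h) ≠ 0`, and `(v(h) / u(h), w(h) / u(h))` is a solution of `y² = f(x)` -/
def OnCurve {L H : Type} [Field L] (f : Polynomial L) (x : H → Fin 3 → L) : Prop :=
  ∀ h, x h 0 ≠ 0 ∧ (x h 2 / x h 0) ^ 2 = f.eval (x h 1 / x h 0)

/-- the points `(v(h) / u(h), w(h) / u(h))` -/
def affPts {L H : Type} [Field L] (x : H → Fin 3 → L) : Set (L × L) :=
  Set.range fun h => (x h 1 / x h 0, x h 2 / x h 0)

/-- the homogeneous form of `y² = f(x)` -/
noncomputable def form {L : Type} [Field L] (f : Polynomial L) : MvPolynomial (Fin 3) L :=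
  X 2 ^ 2 * X 0 ^ (f.natDegree - 2) -
    ∑ k ∈ Finset.range (f.natDegree + 1), C (f.coeff k) * X 1 ^ k * X 0 ^ (f.natDegree - k)

theorem form_homog {L : Type} [Field L] (f : Polynomial L) (h5 : 5 ≤ f.natDegree) :
    (form f).IsHomogeneous f.natDegree := by
  unfold form
  refine IsHomogeneous.sub ?_ ?_
  · have h1 : (X 2 ^ 2 * X 0 ^ (f.natDegree - 2) : MvPolynomial (Fin 3) L).IsHomogeneous
        (2 + (f.natDegree - 2)) :=
      (isHomogeneous_X_pow _ _).mul (isHomogeneous_X_pow _ _)
    rwa [show 2 + (f.natDegree - 2) = f.natDegree by omega] at h1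
  · refine IsHomogeneous.sum _ _ _ fun k hk => ?_
    have h1 : (C (f.coeff k) * X 1 ^ k * X 0 ^ (f.natDegree - k) :
        MvPolynomial (Fin 3) L).IsHomogeneous (0 + k + (f.natDegree - k)) :=
      ((isHomogeneous_C _ _).mul (isHomogeneous_X_pow _ _)).mul (isHomogeneous_X_pow _ _)
    rw [Finset.mem_range] at hk
    rwa [show 0 + k + (f.natDegree - k) = f.natDegree by omega] at h1

theorem form_eval {L : Type} [Field L] (f : Polynomial L) (h5 : 5 ≤ f.natDegree)
    (z : Fin 3 → L) (h0 : z 0 ≠ 0) (hz : (z 2 / z 0) ^ 2 = f.eval (z 1 / z 0)) :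
    eval z (form f) = 0 := by
  unfold form
  simp only [map_sub, map_mul, map_pow, eval_X, map_sum, eval_C]
  rw [sub_eq_zero]
  rw [Polynomial.eval_eq_sum_range] at hz
  have h1 : z 0 ^ f.natDegree * (z 2 / z 0) ^ 2 = z 2 ^ 2 * z 0 ^ (f.natDegree - 2) := by
    obtain ⟨t, ht⟩ : ∃ t, f.natDegree = t + 2 := ⟨f.natDegree - 2, by omega⟩
    rw [ht, Nat.add_sub_cancel, div_pow, pow_add]
    field_simp
  rw [← h1, hz, Finset.mul_sum]
  refine Finset.sum_congr rfl fun k hk => ?_
  rw [Finset.mem_range] at hk
  obtain ⟨t, ht⟩ : ∃ t, f.natDegree = t + k := ⟨f.natDegree - k, by omega⟩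
  rw [ht, Nat.add_sub_cancel, div_pow, pow_add]
  field_simp

/-- curves on a hyperelliptic curve are constant -/
theorem cur_hyper {L : Type} [Field L] (τ : L →+* ℂ) (f : Polynomial L)
    (hf : Squarefree f) (h5 : 5 ≤ f.natDegree) :
    CurIn τ {form f} {1} := by
  classical
  intro q hq _ i j a b
  have hq := hq _ rfl
  have hchar : CharZero L := τ.charZero
  have hsep : (f.map τ).Separable := by
    have : f.Separable := PerfectField.separable_iff_squarefree.2 hf
    exact this.map
  have hnd : (f.map τ).natDegree = f.natDegree := Polynomial.natDegree_map τ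
  have hid : q 2 ^ 2 * q 0 ^ (f.natDegree - 2) =
      ∑ k ∈ Finset.range (f.natDegree + 1), Polynomial.C ((f.map τ).coeff k) * q 1 ^ k *
        q 0 ^ (f.natDegree - k) := by
    rw [← sub_eq_zero]
    rw [← hq]
    unfold form
    simp only [eval₂_sub, eval₂_mul, eval₂_pow, eval₂_X, eval₂_sum, eval₂_C,
      RingHom.comp_apply, Polynomial.coeff_map]
  by_cases h0 : q 0 = 0
  · have h1 : q 1 = 0 := by
      rw [h0, zero_pow (by omega), mul_zero, Finset.sum_range_succ, Nat.sub_self, pow_zero,
        mul_one, Finset.sum_eq_zero, zero_add] at hid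
      · have h2 : (f.map τ).coeff f.natDegree ≠ 0 := by
          rw [Polynomial.coeff_map]
          intro h3
          have h4 := (map_eq_zero τ).1 h3
          rw [Polynomial.coeff_natDegree, Polynomial.leadingCoeff_eq_zero] at h4
          rw [h4, Polynomial.natDegree_zero] at h5
          omega
        have h3 := (mul_eq_zero.1 hid.symm).resolve_left
          (fun h3 => h2 (Polynomial.C_eq_zero.1 h3))
        exact pow_eq_zero_iff (by omega) |>.1 h3
      · intro k hk
        rw [Finset.mem_range] at hk
        rw [zero_pow (by omega), mul_zero]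
    fin_cases i <;> fin_cases j <;> simp [h0, h1, mul_comm]
  · have hid2 : q 2 ^ 2 * q 0 ^ (f.natDegree) = q 0 ^ 2 *
        ∑ k ∈ Finset.range (f.natDegree + 1), Polynomial.C ((f.map τ).coeff k) * q 1 ^ k *
        q 0 ^ (f.natDegree - k) := by
      rw [← hid]
      obtain ⟨t, ht⟩ : ∃ t, f.natDegree = t + 2 := ⟨f.natDegree - 2, by omega⟩
      rw [ht, Nat.add_sub_cancel]
      ring
    obtain ⟨g, u, w, hu, hw⟩ := Pool.Agent.H458.Sp.hyper_const (f.map τ) hsep f.natDegree
      (by rw [hnd]; exact h5) (by rw [hnd]) (q 1) (q 0) (q 2) (q 0) h0 h0 hid2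
    have hw0 : w ≠ 0 := by
      rintro rfl
      apply h0
      rw [hw, Polynomial.C_0, zero_mul]
    have hg0 : g ≠ 0 := by
      rintro rfl
      apply h0
      rw [hw, mul_zero]
    -- the third coordinate
    obtain ⟨c, hc⟩ : ∃ c : ℂ, q 2 ^ 2 = Polynomial.C c * g ^ 2 := by
      refine ⟨(w ^ (f.natDegree - 2))⁻¹ *
        ∑ k ∈ Finset.range (f.natDegree + 1), (f.map τ).coeff k * u ^ k *
          w ^ (f.natDegree - k), ?_⟩
      have h1 : q 2 ^ 2 * (Polynomial.C (w ^ (f.natDegree - 2)) * g ^ (f.natDegree - 2)) =
          Polynomial.C (∑ k ∈ Finset.range (f.natDegree + 1), (f.map τ).coeff k * u ^ k *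
          w ^ (f.natDegree - k)) * g ^ f.natDegree := by
        rw [Polynomial.C_pow, ← mul_pow, ← hw, hid, map_sum, Finset.sum_mul]
        refine Finset.sum_congr rfl fun k hk => ?_
        rw [Finset.mem_range] at hk
        obtain ⟨t, ht⟩ : ∃ t, f.natDegree = t + k := ⟨f.natDegree - k, by omega⟩
        rw [hu, hw, ht, Nat.add_sub_cancel]
        simp only [map_mul, map_pow]
        ring
      have h2 : g ^ f.natDegree = g ^ 2 * g ^ (f.natDegree - 2) := by
        rw [← pow_add]
        congr 1
        omega
      rw [h2, ← mul_assoc, ← mul_assoc] at h1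
      have h3 := mul_right_cancel₀ (pow_ne_zero _ hg0) h1
      have h4 : Polynomial.C (w ^ (f.natDegree - 2)) ≠ 0 := by
        rw [Ne, Polynomial.C_eq_zero]
        exact pow_ne_zero _ hw0
      refine mul_right_cancel₀ h4 ?_
      rw [h3]
      have h5 : (Polynomial.C ((w ^ (f.natDegree - 2))⁻¹) : Polynomial ℂ) *
          Polynomial.C (w ^ (f.natDegree - 2)) = 1 := by
        rw [← Polynomial.C_mul, inv_mul_cancel₀ (pow_ne_zero _ hw0), Polynomial.C_1]
      rw [Polynomial.C_mul]
      linear_combination (-(Polynomial.C (∑ k ∈ Finset.range (f.natDegree + 1),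
        (f.map τ).coeff k * u ^ k * w ^ (f.natDegree - k)) * g ^ 2)) * h5
    obtain ⟨c', hc'⟩ : ∃ c' : ℂ, c' ^ 2 = c := IsAlgClosed.exists_pow_nat_eq c (by norm_num)
    have h6 : (q 2 - Polynomial.C c' * g) * (q 2 + Polynomial.C c' * g) = 0 := by
      have : (q 2 - Polynomial.C c' * g) * (q 2 + Polynomial.C c' * g) =
        q 2 ^ 2 - Polynomial.C (c' ^ 2) * g ^ 2 := by rw [Polynomial.C_pow]; ring
      rw [this, hc', hc, sub_self]
    obtain ⟨γ, hγ⟩ : ∃ γ : ℂ, q 2 = Polynomial.C γ * g := by
      rcases mul_eq_zero.1 h6 with h7 | h7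
      · exact ⟨c', sub_eq_zero.1 h7⟩
      · refine ⟨-c', ?_⟩
        rw [Polynomial.C_neg, neg_mul]
        exact eq_neg_of_add_eq_zero_left h7
    have h8 : ∀ i : Fin 3, ∃ γ : ℂ, q i = Polynomial.C γ * g := by
      intro i
      fin_cases i
      · exact ⟨w, hw⟩
      · exact ⟨u, hu⟩
      · exact ⟨γ, hγ⟩
    obtain ⟨γi, hi⟩ := h8 i
    obtain ⟨γj, hj⟩ := h8 j
    rw [hi, hj]
    simp only [Polynomial.eval_mul, Polynomial.eval_C]
    ring

/-- (1) For all `n, d, s, r, e` there is `B` such that, for all fields `L` with an embedding `τ` in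
`ℂ`, all sets `FF`, `GG` of forms of degree at most `d` over `L` such that all nonconstant rational
curves over `ℂ` on the variety of `FF` lie in the variety of `GG`, and all families `x(h)`, `h` in a
group `H`, given by iterated recurrences (`IterVec s r e`), with values on the variety of `FF`, there
are at most `B` points `x(h)` outside of the variety of `GG`.
(2) For all `D, s, r, e` there is `B` such that for all fields `L` embeddable in `ℂ` and all
squarefree `f` over `L` of degree between `5` and `D` every family of rational points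
`(v(h) / u(h), w(h) / u(h))` of `y² = f(x)`, with `(u, v, w)` given by iterated recurrences
(`IterVec s r e`), consists of at most `B` points. -/
theorem result :
    (∀ n d s r e : ℕ, ∃ B : ℕ, ∀ (L : Type) [Field L] (τ : L →+* ℂ)
      (FF GG : Set (MvPolynomial (Fin (n + 1)) L)), (∀ F ∈ FF, ∃ m ≤ d, F.IsHomogeneous m) →
      (∀ G ∈ GG, ∃ m ≤ d, G.IsHomogeneous m) → CurIn τ FF GG →
      ∀ (H : Type) [Group H] (x : H → Fin (n + 1) → L), IterVec s r e x →
      (∀ h, ∀ F ∈ FF, eval (x h) F = 0) → (offPts GG x).encard ≤ (B : ℕ∞)) ∧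
    (∀ D s r e : ℕ, ∃ B : ℕ, ∀ (L : Type) [Field L] (_ : L →+* ℂ) (f : Polynomial L),
      Squarefree f → 5 ≤ f.natDegree → f.natDegree ≤ D →
      ∀ (H : Type) [Group H] (x : H → Fin 3 → L), IterVec s r e x → OnCurve f x →
        (affPts x).encard ≤ (B : ℕ∞)) := by
  refine ⟨uniform_all, fun D s r e => ?_⟩
  obtain ⟨B, hB⟩ := uniform_all 2 D s r e
  refine ⟨B, ?_⟩
  intro L _ τ f hf h5 hD H _ x hx hon
  have h1 := hB L τ {form f} {1} (by
    rintro F rfl
    exact ⟨f.natDegree, hD, form_homog f h5⟩) (by
    rintro G rfl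
    exact ⟨0, Nat.zero_le _, isHomogeneous_one _ _⟩) (cur_hyper τ f hf h5) H x hx (by
    rintro h F rfl
    exact form_eval f h5 (x h) (hon h).1 (hon h).2)
  refine le_trans ?_ h1
  -- the affine points inject in the projective points
  let φ : L × L → Projectivization L (Fin 3 → L) := fun p =>
    Projectivization.mk L ![1, p.1, p.2] (fun h0 => one_ne_zero (congrFun h0 0))
  have hinj : Function.Injective φ := by
    rintro ⟨a, b⟩ ⟨a', b'⟩ h
    obtain ⟨t, ht⟩ := (Projectivization.mk_eq_mk_iff' L _ _ _ _).1 h
    have e0 := congrFun ht 0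
    have e1 := congrFun ht 1
    have e2 := congrFun ht 2
    simp at e0 e1 e2
    subst e0
    simp at e1 e2
    rw [e1, e2]
  rw [← hinj.encard_image]
  refine Set.encard_le_encard ?_
  rintro _ ⟨_, ⟨h, rfl⟩, rfl⟩
  have h0 : x h ≠ 0 := fun h0 => (hon h).1 (by rw [h0]; rfl)
  refine ⟨h, h0, ⟨1, rfl, by rw [map_one]; exact one_ne_zero⟩, ?_⟩
  refine (Projectivization.mk_eq_mk_iff' L _ _ _ _).2 ⟨(x h 0)⁻¹, ?_⟩
  have := (hon h).1
  ext i
  fin_cases i
  · simp [this]
  · simp [div_eq_inv_mul]
  · simp [div_eq_inv_mul]

end Pool.Agent.Results.MP_10e784_ag.UniformRecurrentPoints
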